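import Pool.Agent.Q60.MV.Ab

/-!
# The Mumford-Tate conjecture for an abelian variety is decided by the Tate classes of codimension
two on the fourth power

Let `A` be an abelian variety over the algebraic closure `k` of a finitely generated subfield `k_1`
of the complex numbers, `l` a prime number and `V = H^1(A)`. Suppose that the centre of the
endomorphism algebra of `A` is a product of totally real fields (`A` has no factor of type IV).

If the Tate classes in `V ⊗ V ⊗ V ⊗ V`, a part of `H^4(A ^ 4)`, are linear combinations of Hodge
classes on `A ^ 4`, then the Tate classes of all codimensions on all powers of `A` are exactly the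
linear combinations of the Hodge classes, that is (Tannaka, Faltings, Deligne) the Mumford-Tate
conjecture holds for `A`.

The theorem is proved for every variety `A` in a Weil cohomology with a comparison isomorphism and
an action of a group, with the following properties of abelian varieties: the cohomology ring is
generated in degree one; `H(A)` is a polarisable Hodge structure; the Galois representations on
`H^n(A ^ n)` are semisimple (Faltings); the Hodge classes on the powers of `A` are Tate classes
(Deligne).

The proof: let `g` and `h` be the Lie algebras of the matrices which annihilate the Tate classes and
the Hodge classes in the tensor powers of `V`. Both are contained in `End V`. The projectors onto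
them given by the polarisation and by semisimplicity are classes in the fourth tensor power. So `g`
is an ideal of `h` with a complement which commutes with `g`, so with all Hodge endomorphisms of
`V`; as the centre is totally real, the complement is zero. By semisimplicity the Tate classes on
`A ^ n` are sums of images of Tate classes in the tensor powers of `V`.
-/

open CategoryTheory AlgebraicGeometry

universe u w

namespace Pool.Agent.Results.MP_33b3f9_ag.CodimensionTwoDecides

open Pool.Agent.H914
open Pool.Agent.Y121.AHS (HodgeTheory)
open Pool.Agent.Q55 (GaloisAction)
open Pool.Agent.Q60.MT (Artin MumfordTate)
open Pool.Agent.Q60.TD (SemisimpleAt)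
open Pool.Agent.Q60.MV (TotallyRealCentreIn GeneratedInDegreeOne HodgeAreTate TateInSpan pow)

variable {k : Type u} [Field k] {𝒱 : VarClass k} {ops : CycleOps 𝒱} {T : HodgeTheory ops}
  {W' : WeilCohomology.{u, 0} ops} {Γ : Type w} [Group Γ]

/-- **The Mumford-Tate conjecture for an abelian variety** is decided by the Tate classes of
codimension two in the fourth tensor power of `H^1`. `pow A n` is the product of `n` copies of
`A`. -/
theorem result (C : Artin T.W W') (G : GaloisAction W' Γ) (A : 𝒱.Obj)
    (hA : GeneratedInDegreeOne T.W A) (hc : TotallyRealCentreIn T A 1)
    (hS : ∀ n, SemisimpleAt G (pow A n) n) (hD : ∀ n, HodgeAreTate C G (pow A n))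
    (h : TateInSpan C G A 1 4) (n : ℕ) : MumfordTate C G (pow A n) :=
  Pool.Agent.Q60.MV.mumfordTate_ab hA hc hS hD h n

end Pool.Agent.Results.MP_33b3f9_ag.CodimensionTwoDecides
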