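import Pool.Agent.Q43.RP.Mtl
import Pool.Agent.Q43.RP.Uw
import Pool.Agent.Q43.RP.Tt

/-!
# The Mumford-Tate conjecture for all but exponentially few slope types of all CM fields

Let `K i` be any finite family of CM fields (nothing is assumed about their Galois groups, their
subfields, or their mutual position; they may be isomorphic), each of degree at least `2 g`, of total
degree `2 N`, and `p` a prime number. A `p`-adic type `Φ i` of `K i` is a choice of one element out of
each complex conjugate pair of embeddings of `K i` in the algebraic closure of `ℚ_p`; there are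
`2 ^ N` families of types. Together with a function `M` (the same for all types, without zeros,
invariant under complex conjugation) a type prescribes the slopes `(a + κ M) / 2` on `Φ i` and
`(a - κ M) / 2` outside of `Φ i` of a Weil number `π i` in `K i` with complex absolute values
`p ^ (a / 2)`. The most important case is `M = 1`, `κ = a`: ordinary reduction.

The theorem: for all but

`2 ^ N * r * (2 N + 1) ^ 3 * 7 ^ (- g / 8)`

families of types, where `r` is the number of the fields, the Mumford-Tate conjecture holds for ALL
abelian varieties `A` (over finitely generated subfields of the complex numbers, of dimension `N`, with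
arbitrary endomorphisms; factors of type IV are allowed) which have at ONE place of good reduction a
Frobenius element whose characteristic polynomial is the product of the minimal polynomials of Weil
numbers of these slope types: for all prime numbers `ℓ`, all Tate classes in all the spaces
`(H^1)^{⊗ 2 m}(m)`, and so in the cohomology of all powers of `A`, are linear combinations of Hodge
classes (the converse is the theorem of Deligne). For one field of degree `2 g` the exceptional
proportion is at most `(2 g + 1) ^ 3 * 7 ^ (- g / 8)`; it decreases exponentially with `g`, uniformly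
in all CM fields of degree `2 g`, all prime numbers `p` and all functions `M`.

The starting results `AlmostAllFrobeniusTypes` and `AllCMFields` of this problem prove more for the
types which are not exceptional (the classes are generated by divisor classes) for pairwise
independent fields; the bound for the exceptional proportion there is not small for fields with many
CM subfields (there is none for multiquadratic fields of large degree), and cannot be: for elementary
abelian Galois groups about half of all CM types have Hodge classes that are not generated by divisor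
classes (MP_90e98f_ag `AlmostLinearDegree`). Here the Hodge classes need not be generated by divisor
classes.

The proof: a word of at most four Frobenius eigenvalues whose product is, up to a root of unity, a
power of `p ^ (a / 2)` gives a linear relation between the Galois translates of the slope function.
For a given word this happens for an exponentially small proportion of the types (an estimate of
Littlewood-Offord type on a large family of disjoint translates), unless the word consists of complex
conjugate pairs, and there are only `r (2 N + 1) ^ 3` words up to translation. For the other types there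
are no nontrivial relations of length four between the eigenvalues, and the theorem follows from a
starting result (MP_6c781a_ag `FourTermAllTypes`).

In the Lean statement `H` is `H_1(A, ℚ)`, `T` the tangent space at the origin, `per : H → T` the
inclusion; `ρ`, `χ`, `ω` are the Galois representation on the Tate module `ℚ_ℓ ⊗ H`, the cyclotomic
character and the Weil pairing (`IsAbelianVariety`; this contains the theorems of Faltings, the
theorem of Deligne and the theorem on centres of Vasiu, Ullmo and Yafaev).
-/

set_option autoImplicit false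

namespace Pool.Agent.Results.MP_33b3f9_ag.ExponentiallyFewTypes

open NumberField Module TensorProduct Pool.Agent.H204R3.CM Pool.Agent.H204R3.GP
  Pool.Agent.W516.MTD Pool.Agent.TH776.FM Pool.Agent.H868R3.TwoOdd Pool.Agent.W548.Tt

/-- The Mumford-Tate conjecture holds for all abelian varieties with a Frobenius element of the slope
types `Φ`: for all Weil numbers `π i` in `K i` with all complex absolute values `p ^ (a / 2)` and the
slopes given by `M i`, `Φ i` and some common factor `κ ≠ 0`, all prime numbers `ℓ` and all abelian
varieties with an element `γ` of the Galois group whose characteristic polynomial is the product of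
the minimal polynomials of the `π i`, all Tate classes are linear combinations of Hodge classes. -/
def MumfordTateForTypes (p : ℕ) [Fact p.Prime] {I : Type} [Fintype I] (K : I → Type)
    [∀ i, Field (K i)] [∀ i, NumberField (K i)] [∀ i, IsCMField (K i)]
    (M : ∀ i, (K i →+* PadicAlgCl p) → ℝ) (Φ : ∀ i, Set (K i →+* PadicAlgCl p)) : Prop :=
  ∀ (a : ℕ) (π : ∀ i, K i) (κ : ℝ), κ ≠ 0 →
    (∀ i, ∀ φ : K i →+* ℂ, ‖φ (π i)‖ ^ 2 = (p : ℝ) ^ a) →
    (∀ i, HasSlopeType p (π i) a (M i) (Φ i) κ) →
    ∀ (ℓ : ℕ) [Fact ℓ.Prime] {H T Γ : Type} [AddCommGroup H] [Module ℚ H] [FiniteDimensional ℚ H]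
      [AddCommGroup T] [Module ℂ T] [Group Γ] (per : H →+ T) (ω₀ : H →ₗ[ℚ] H →ₗ[ℚ] ℚ)
      (ρ : Representation ℚ_[ℓ] Γ (ℚ_[ℓ] ⊗[ℚ] H)) (χ : Γ →* ℚ_[ℓ])
      (ω : ℚ_[ℓ] ⊗[ℚ] H →ₗ[ℚ_[ℓ]] ℚ_[ℓ] ⊗[ℚ] H →ₗ[ℚ_[ℓ]] ℚ_[ℓ]),
      IsAbelianVariety per ω₀ ρ χ ω →
      ∀ γ : Γ, χ γ = (p ^ a : ℕ) →
        (ρ γ).charpoly = (∏ i, minpoly ℚ (π i)).map (algebraMap ℚ ℚ_[ℓ]) →
        ∀ (m : ℕ) (φ : MultilinearMap ℚ_[ℓ] (fun _ : Fin m × Fin 2 => ℚ_[ℓ] ⊗[ℚ] H) ℚ_[ℓ]),
          IsTateTensor ρ χ m φ → IsHodgeCombination per φ

/-- **The Mumford-Tate conjecture for all but exponentially few slope types of all CM fields.** -/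
theorem result (p : ℕ) [Fact p.Prime] {I : Type} [Fintype I] (K : I → Type)
    [∀ i, Field (K i)] [∀ i, NumberField (K i)] [∀ i, IsCMField (K i)]
    (g N : ℕ) (hg : ∀ i, 2 * g ≤ finrank ℚ (K i)) (hN : ∑ i, finrank ℚ (K i) = 2 * N)
    (M : ∀ i, (K i →+* PadicAlgCl p) → ℝ)
    (hM : ∀ i τ, M i (cbar τ) = M i τ) (hM0 : ∀ i τ, M i τ ≠ 0) :
    {Φ : ∀ i, Set (K i →+* PadicAlgCl p) | ∀ i, IsPadicType p (Φ i)}.ncard = 2 ^ N ∧
    ({Φ : ∀ i, Set (K i →+* PadicAlgCl p) | (∀ i, IsPadicType p (Φ i)) ∧
      ¬ MumfordTateForTypes p K M Φ}.ncard : ℝ) ≤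
      2 ^ N * (Fintype.card I * (2 * N + 1) ^ 3 * 7 ^ (-(g / 8 : ℝ))) := by
  classical
  refine ⟨Pool.Agent.Q43.RP.ncard_padic p K N hN, ?_⟩
  have h1 := Pool.Agent.Q43.RP.ncard_uw p K g N 4 hg hN (by norm_num) M hM hM0
  have h2 : (2 : ℝ) ^ N * (Fintype.card I * (2 * N + 1) ^ (4 - 1) *
      (3 * (4 : ℕ) / 2 + 1) ^ (-(g / (2 * (4 : ℕ)) : ℝ))) =
      2 ^ N * (Fintype.card I * (2 * N + 1) ^ 3 * 7 ^ (-(g / 8 : ℝ))) := by
    norm_num
  rw [← h2]
  refine le_trans ?_ h1
  rw [Nat.cast_le]
  refine Set.ncard_le_ncard ?_ ((Set.toFinite
    {Φ : ∀ i, Set (K i →+* PadicAlgCl p) | ∀ i, IsPadicType p (Φ i)}).subset fun _ h => h.1)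
  rintro Φ ⟨hΦ, hnot⟩
  refine ⟨hΦ, fun hW => hnot ?_⟩
  intro a π κ hκ hweil hslope ℓ _ H T Γ _ _ _ _ _ _ per ω₀ ρ χ ω hA γ hχ hγ m φ hφ
  have hp : 0 < p ^ a := pow_pos (Fact.out : p.Prime).pos a
  have hsf := hW a π κ hκ hweil hslope
  have hcast : ((p : ℚ) ^ a) = (((p ^ a : ℕ)) : ℚ) := by push_cast; rfl
  rw [hcast] at hsf
  exact Pool.Agent.Q43.RP.mt_free K hp π (fun i φ => by rw [hweil]; push_cast; rfl) hsf hA γ hχ hγ
    m φ hφ

end Pool.Agent.Results.MP_33b3f9_ag.ExponentiallyFewTypes
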